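import Pool.Agent.L0h58.HN.Prog

/-!
# Project HN (helper58), modules SELB and SELG: selection
-/

set_option autoImplicit false
set_option linter.all false
set_option maxHeartbeats 1000000

namespace Pool.Agent.L0h37.HN

open Finset Pool.Agent.L0h32.LT Pool.Agent.L0h58.HN

theorem sel_restr {t n : ℕ} (F : Fin t → Inp n → Bool) (k : Fin t) (y : Inp n) :
    sel F (Fin.addCases (motive := fun _ => Bool) (fun i => decide (i = k)) y) = F k y := by
  unfold sel
  simp only [Fin.addCases_left, Fin.addCases_right]
  cases hf : (List.finRange t).find? (fun i => decide (i = k)) with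
  | none =>
    rw [List.find?_eq_none] at hf
    exact absurd (hf k (List.mem_finRange k)) (by simp)
  | some a =>
    have := List.find?_some hf
    have ha : a = k := by simpa using this
    rw [ha]

/-- The restriction of a program. -/
def restr {t n : ℕ} {V : Type} (hn : 0 < n) (k : Fin t) (P : BP (t + n) V) : BP n V where
  start := P.start
  var := fun v => Fin.addCases (motive := fun _ => Fin n) (fun _ => ⟨0, hn⟩) (fun j => j) (P.var v)
  next := fun v b => Fin.addCases (motive := fun _ => V) (fun i => P.next v (decide (i = k)))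
      (fun _ => P.next v b) (P.var v)
  out := P.out

theorem restr_step {t n : ℕ} {V : Type} (hn : 0 < n) (k : Fin t) (P : BP (t + n) V) (y : Inp n)
    (v : V) : (restr hn k P).step y v =
      P.step (Fin.addCases (motive := fun _ => Bool) (fun i => decide (i = k)) y) v := by
  unfold BP.step
  show (if (P.out v).isSome then v else _) = _
  by_cases hv : (P.out v).isSome = true
  · rw [if_pos hv, if_pos hv]
  · rw [if_neg hv, if_neg hv]
    show (Fin.addCases (motive := fun _ => V) (fun i => P.next v (decide (i = k)))
      (fun _ => P.next v (y (Fin.addCases (motive := fun _ => Fin n) (fun _ => ⟨0, hn⟩)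
        (fun j => j) (P.var v)))) (P.var v)) = _
    generalize hw : P.var v = w
    induction w using Fin.addCases with
    | left i => simp only [Fin.addCases_left]
    | right i => simp only [Fin.addCases_right]

theorem restr_acc {t n T : ℕ} {V : Type} (hn : 0 < n) (k : Fin t) (P : BP (t + n) V) (y : Inp n) :
    (restr hn k P).Accepts T y ↔
      P.Accepts T (Fin.addCases (motive := fun _ => Bool) (fun i => decide (i = k)) y) := by
  unfold BP.Accepts
  have : (restr hn k P).step y =
      P.step (Fin.addCases (motive := fun _ => Bool) (fun i => decide (i = k)) y) :=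
    funext fun v => restr_step hn k P y v
  rw [this]
  rfl

open Classical in
theorem t_SELB : S_SELB := by
  intro t n T L δ F k hn h Ω _ p V _ P hp0 hp1 hV a b ha hb h1 h2
  have e : ∀ y : Inp n, (∑ ω, if (restr hn k (P ω)).Accepts T y then p ω else 0) =
      ∑ ω, if (P ω).Accepts T (Fin.addCases (motive := fun _ => Bool)
        (fun i => decide (i = k)) y) then p ω else 0 := by
    intro y
    refine Finset.sum_congr rfl fun ω _ => ?_
    by_cases hc : (restr hn k (P ω)).Accepts T y
    · rw [if_pos hc, if_pos ((restr_acc hn k (P ω) y).1 hc)]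
    · rw [if_neg hc, if_neg fun hc' => hc ((restr_acc hn k (P ω) y).2 hc')]
  refine h Ω p V (fun ω => restr hn k (P ω)) hp0 hp1 hV a b ha hb ?_ ?_
  · intro y hy
    rw [e]
    exact h1 _ (by rw [sel_restr]; exact hy)
  · intro y hy
    rw [e]
    exact h2 _ (by rw [sel_restr]; exact hy)

section SELG

variable {t n : ℕ} {V : Fin t → Type}

/-- The nodes. -/
abbrev WW (V : Fin t → Type) : Type := (Fin t × Option (Fin t)) ⊕ (Unit ⊕ (Σ k : Fin t, V k))

/-- The node at time `i` with the selection `s`. -/
def stt (P : ∀ k, NBP n (V k)) (i : ℕ) (s : Option (Fin t)) : WW V :=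
  if h : i < t then Sum.inl (⟨i, h⟩, s) else
    match s with
    | some k => Sum.inr (Sum.inr ⟨k, (P k).start⟩)
    | none => Sum.inr (Sum.inl ())

/-- The new selection. -/
def upd (i : Fin t) (s : Option (Fin t)) (b : Bool) : Option (Fin t) :=
  s.or (if b then some i else none)

/-- The program of the selection. -/
def big (hn : 0 < n) (P : ∀ k, NBP n (V k)) : NBP (t + n) (WW V) where
  start := stt P 0 none
  var := fun w => match w with
    | Sum.inl (i, _) => Fin.castAdd n i
    | Sum.inr (Sum.inl _) => Fin.natAdd t ⟨0, hn⟩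
    | Sum.inr (Sum.inr v) => Fin.natAdd t ((P v.1).var v.2)
  next := fun w b c => match w with
    | Sum.inl (i, s) => stt P (i + 1) (upd i s b)
    | Sum.inr (Sum.inl u) => Sum.inr (Sum.inl u)
    | Sum.inr (Sum.inr v) => Sum.inr (Sum.inr ⟨v.1, (P v.1).next v.2 b c⟩)
  out := fun w => match w with
    | Sum.inl _ => none
    | Sum.inr (Sum.inl _) => some false
    | Sum.inr (Sum.inr v) => (P v.1).out v.2

/-- The selection before time `i`. -/
def sl (x : Inp (t + n)) (i : ℕ) : Option (Fin t) :=
  ((List.finRange t).take i).find? fun j => x (Fin.castAdd n j)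

theorem sl_succ (x : Inp (t + n)) (i : ℕ) (h : i < t) :
    sl x (i + 1) = upd ⟨i, h⟩ (sl x i) (x (Fin.castAdd n ⟨i, h⟩)) := by
  unfold sl upd
  have h1 : (List.finRange t)[i]? = some ⟨i, h⟩ := by
    rw [List.getElem?_eq_getElem (by rw [List.length_finRange]; exact h)]
    simp
  rw [List.take_add_one, List.find?_append, h1]
  congr 1
  simp only [Option.toList_some, List.find?_cons, List.find?_nil]
  cases x (Fin.castAdd n ⟨i, h⟩) <;> rfl

theorem big_step_sel (hn : 0 < n) (P : ∀ k, NBP n (V k)) (x : Inp (t + n)) (i : ℕ) (h : i < t)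
    (s : Option (Fin t)) (c : Bool) : (big hn P).step x (stt P i s) c =
      stt P (i + 1) (upd ⟨i, h⟩ s (x (Fin.castAdd n ⟨i, h⟩))) := by
  have e : stt P i s = (Sum.inl (⟨i, h⟩, s) : WW V) := by
    unfold stt
    rw [dif_pos h]
  rw [e]
  rfl

theorem big_step_rej (hn : 0 < n) (P : ∀ k, NBP n (V k)) (x : Inp (t + n)) (c : Bool) :
    (big hn P).step x (Sum.inr (Sum.inl ()) : WW V) c = Sum.inr (Sum.inl ()) := rfl

theorem big_step_run (hn : 0 < n) (P : ∀ k, NBP n (V k)) (x : Inp (t + n)) (k : Fin t) (v : V k)
    (c : Bool) : (big hn P).step x (Sum.inr (Sum.inr ⟨k, v⟩) : WW V) c =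
      Sum.inr (Sum.inr ⟨k, (P k).step (fun i => x (Fin.natAdd t i)) v c⟩) := by
  unfold NBP.step
  show (if ((P k).out v).isSome then (Sum.inr (Sum.inr ⟨k, v⟩) : WW V) else
    Sum.inr (Sum.inr ⟨k, (P k).next v (x (Fin.natAdd t ((P k).var v))) c⟩)) = _
  by_cases hv : ((P k).out v).isSome = true
  · rw [if_pos hv, if_pos hv]
  · rw [if_neg hv, if_neg hv]

theorem run_sel (hn : 0 < n) (P : ∀ k, NBP n (V k)) (x : Inp (t + n)) (γ : ℕ → Bool) (i : ℕ)
    (hi : i ≤ t) : (big hn P).run x γ i = stt P i (sl x i) := by
  induction i with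
  | zero =>
    show stt P 0 none = _
    rfl
  | succ i ih =>
    show (big hn P).step x ((big hn P).run x γ i) (γ i) = _
    rw [ih (by omega), big_step_sel hn P x i (by omega), ← sl_succ x i (by omega)]

theorem run_end (hn : 0 < n) (P : ∀ k, NBP n (V k)) (x : Inp (t + n)) (γ : ℕ → Bool) :
    (big hn P).run x γ t = match sl x t with
      | some k => (Sum.inr (Sum.inr ⟨k, (P k).start⟩) : WW V)
      | none => Sum.inr (Sum.inl ()) := by
  rw [run_sel hn P x γ t le_rfl]
  unfold stt
  rw [dif_neg (lt_irrefl t)]

theorem run_none (hn : 0 < n) (P : ∀ k, NBP n (V k)) (x : Inp (t + n)) (γ : ℕ → Bool)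
    (h : sl x t = none) (m : ℕ) : (big hn P).run x γ (t + m) = Sum.inr (Sum.inl ()) := by
  induction m with
  | zero =>
    rw [Nat.add_zero, run_end, h]
  | succ m ih =>
    show (big hn P).step x ((big hn P).run x γ (t + m)) (γ (t + m)) = _
    rw [ih]
    rfl

theorem run_some (hn : 0 < n) (P : ∀ k, NBP n (V k)) (x : Inp (t + n)) (γ : ℕ → Bool) (k : Fin t)
    (h : sl x t = some k) (m : ℕ) : (big hn P).run x γ (t + m) =
      Sum.inr (Sum.inr ⟨k, (P k).run (fun i => x (Fin.natAdd t i)) (fun j => γ (t + j)) m⟩) := by
  induction m with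
  | zero =>
    rw [Nat.add_zero, run_end, h]
    rfl
  | succ m ih =>
    show (big hn P).step x ((big hn P).run x γ (t + m)) (γ (t + m)) = _
    rw [ih, big_step_run]
    rfl

theorem cnt_sel (hn : 0 < n) (P : ∀ k, NBP n (V k)) (x : Inp (t + n)) (γ γ' : ℕ → Bool)
    (k : Fin t) (h : sl x t = some k) (T : ℕ) (hγ : (fun j => γ (t + j)) = γ')
    {d1 : DecidablePred fun i => (big hn P).step x ((big hn P).run x γ i) false ≠
      (big hn P).step x ((big hn P).run x γ i) true}
    {d2 : DecidablePred fun i => (P k).step (fun i => x (Fin.natAdd t i))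
        ((P k).run (fun i => x (Fin.natAdd t i)) γ' i) false ≠
      (P k).step (fun i => x (Fin.natAdd t i))
        ((P k).run (fun i => x (Fin.natAdd t i)) γ' i) true} :
    ((range (t + T)).filter fun i => (big hn P).step x ((big hn P).run x γ i) false ≠
      (big hn P).step x ((big hn P).run x γ i) true).card =
    ((range T).filter fun i =>
      (P k).step (fun i => x (Fin.natAdd t i))
        ((P k).run (fun i => x (Fin.natAdd t i)) γ' i) false ≠
      (P k).step (fun i => x (Fin.natAdd t i))
        ((P k).run (fun i => x (Fin.natAdd t i)) γ' i) true).card := by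
  classical
  subst hγ
  have hinj : Function.Injective fun i : ℕ => t + i := fun a b hab => by
    have : t + a = t + b := hab
    omega
  refine Eq.trans ?_ (card_image_of_injective _ hinj)
  congr 1
  ext i
  rw [mem_filter, mem_image, mem_range]
  constructor
  · rintro ⟨h1, h2⟩
    rcases lt_or_ge i t with hi | hi
    · exact absurd (by
        rw [run_sel hn P x γ i hi.le, big_step_sel hn P x i hi, big_step_sel hn P x i hi]) h2
    · obtain ⟨m, rfl⟩ := Nat.exists_eq_add_of_le hi
      refine ⟨m, ?_, rfl⟩
      rw [mem_filter, mem_range]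
      refine ⟨by omega, fun h3 => h2 ?_⟩
      rw [run_some hn P x γ k h, big_step_run, big_step_run, h3]
  · rintro ⟨m, hm, rfl⟩
    rw [mem_filter, mem_range] at hm
    refine ⟨by show t + m < t + T; omega, fun h3 => hm.2 ?_⟩
    have h4 : (big hn P).step x ((big hn P).run x γ (t + m)) false =
      (big hn P).step x ((big hn P).run x γ (t + m)) true := h3
    rw [run_some hn P x γ k h, big_step_run, big_step_run] at h4
    have h5 := Sum.inr.inj (Sum.inr.inj h4)
    exact eq_of_heq (Sigma.mk.inj h5).2

theorem t_SELG : S_SELG := by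
  intro t n T B g F hn hF
  choose V hV P hcard hacc using hF
  have hV' : ∀ k, Finite (V k) := hV
  refine ⟨WW V, inferInstance, big hn P, ?_, ?_⟩
  · have h1 : Nat.card (WW V) = t * (t + 1) + (1 + ∑ k : Fin t, Nat.card (V k)) := by
      unfold WW
      rw [Nat.card_sum, Nat.card_sum, Nat.card_sigma, Nat.card_eq_fintype_card,
        Nat.card_eq_fintype_card, Fintype.card_prod, Fintype.card_option, Fintype.card_fin,
        Fintype.card_unit]
    have h2 : ∑ k : Fin t, Nat.card (V k) ≤ t * B := by
      refine (sum_le_card_nsmul _ _ B fun k _ => hcard k).trans ?_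
      rw [card_univ, Fintype.card_fin, smul_eq_mul]
    rw [h1]
    omega
  · intro x
    have hsl : sl x t = (List.finRange t).find? (fun i => x (Fin.castAdd n i)) := by
      unfold sl
      rw [List.take_of_length_le (by rw [List.length_finRange])]
    cases hs : sl x t with
    | none =>
      have h1 : sel F x = false := by
        unfold sel
        rw [← hsl, hs]
      rw [h1]
      refine ⟨fun h => by simp at h, fun h => ?_⟩
      obtain ⟨γ, h2, -⟩ := h
      rw [run_none hn P x γ hs] at h2
      have h3 : (some false : Option Bool) = some true := h2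
      simp at h3
    | some k =>
      have h1 : sel F x = F k fun i => x (Fin.natAdd t i) := by
        unfold sel
        rw [← hsl, hs]
      rw [h1, hacc k]
      constructor
      · rintro ⟨γ, h2, h3⟩
        have e : (fun j => (fun m => γ (m - t)) (t + j)) = γ := by
          funext j
          show γ (t + j - t) = γ j
          rw [Nat.add_sub_cancel_left]
        refine ⟨fun m => γ (m - t), ?_, ?_⟩
        · rw [run_some hn P x _ k hs, e]
          exact h2
        · exact (cnt_sel hn P x (fun m => γ (m - t)) γ k hs T e).le.trans h3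
      · rintro ⟨γ, h2, h3⟩
        rw [run_some hn P x _ k hs] at h2
        exact ⟨fun j => γ (t + j), h2,
          (cnt_sel hn P x γ (fun j => γ (t + j)) k hs T rfl).ge.trans h3⟩

end SELG

end Pool.Agent.L0h37.HN
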