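import Pool.Agent.L0h58.HN.Stm
import Pool.Agent.L0h51.LT.Cnt

/-!
# Project HN (helper58), module CON: concentration of the labellings
-/

set_option autoImplicit false
set_option linter.all false
set_option maxHeartbeats 2000000

open Finset
open scoped Classical

namespace Pool.Agent.L0h37.HN

open Pool.Agent.L0h32.LT Pool.Agent.L0h32.LT2 Pool.Agent.L0h51.LT
open Pool.Agent.L0h58.HN

/-- exponential moments for two groups of variables -/
theorem mgf2 (hM : S_MGF) {r n Q Θ : ℕ} (hQ : 0 < Q) (hΘ : 0 < Θ)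
    (f : (Fin r → Fin Q) → (Fin n → Fin Θ) → ℝ) (ℓ : ℝ) (hℓ : 0 ≤ ℓ)
    (h1 : ∀ F s a h, |f (Function.update F s a) h - f F h| ≤ ℓ)
    (h2 : ∀ F h i b, |f F (Function.update h i b) - f F h| ≤ 1) {T m : ℝ}
    (hT : T = (Q : ℝ) ^ r * (Θ : ℝ) ^ n) (hm : ∑ F, ∑ h, f F h = T * m) (l : ℝ) :
    ∑ F, ∑ h, Real.exp (l * (f F h - m)) ≤ T * Real.exp (l ^ 2 * (r * ℓ ^ 2 + n) / 2) := by
  have hQ0 : (0 : ℝ) < Q := by exact_mod_cast hQ
  have hΘ0 : (0 : ℝ) < Θ := by exact_mod_cast hΘ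
  have : Nonempty (Fin Q) := ⟨⟨0, hQ⟩⟩
  have : Nonempty (Fin Θ) := ⟨⟨0, hΘ⟩⟩
  obtain ⟨g, hg⟩ : ∃ g : (Fin r → Fin Q) → ℝ, g = fun F => (∑ h, f F h) / (Θ : ℝ) ^ n := ⟨_, rfl⟩
  have hgd : ∀ F s a, |g (Function.update F s a) - g F| ≤ ℓ := by
    intro F s a
    rw [hg]
    beta_reduce
    rw [← sub_div, ← sum_sub_distrib, abs_div, abs_of_pos (show (0 : ℝ) < (Θ : ℝ) ^ n by positivity),
      div_le_iff₀ (by positivity)]
    refine (abs_sum_le_sum_abs _ _).trans ?_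
    refine (sum_le_sum fun h _ => h1 F s a h).trans ?_
    rw [sum_const, card_univ, Fintype.card_fun, Fintype.card_fin, Fintype.card_fin, nsmul_eq_mul]
    push_cast
    exact le_of_eq (mul_comm _ _)
  have hgm : (∑ F, g F) / (Fintype.card (Fin Q) : ℝ) ^ r = m := by
    rw [hg]
    beta_reduce
    rw [← sum_div, hm, hT, Fintype.card_fin]
    field_simp
  have hA := hM r (Fin Q) g ℓ hℓ hgd l
  rw [hgm, Fintype.card_fin] at hA
  have hB : ∀ F, ∑ h, Real.exp (l * (f F h - g F)) ≤ (Θ : ℝ) ^ n * Real.exp (l ^ 2 * n / 2) := by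
    intro F
    have := hM n (Fin Θ) (f F) 1 zero_le_one (fun h i b => h2 F h i b) l
    rw [Fintype.card_fin] at this
    rw [hg]
    beta_reduce
    refine this.trans (le_of_eq ?_)
    rw [one_pow, mul_one]
  calc ∑ F, ∑ h, Real.exp (l * (f F h - m))
      = ∑ F, Real.exp (l * (g F - m)) * ∑ h, Real.exp (l * (f F h - g F)) := by
        refine sum_congr rfl fun F _ => ?_
        rw [mul_sum]
        refine sum_congr rfl fun h _ => ?_
        rw [← Real.exp_add]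
        congr 1
        ring
    _ ≤ ∑ F, Real.exp (l * (g F - m)) * ((Θ : ℝ) ^ n * Real.exp (l ^ 2 * n / 2)) :=
        sum_le_sum fun F _ => mul_le_mul_of_nonneg_left (hB F) (Real.exp_pos _).le
    _ = (∑ F, Real.exp (l * (g F - m))) * ((Θ : ℝ) ^ n * Real.exp (l ^ 2 * n / 2)) := by
        rw [sum_mul]
    _ ≤ ((Q : ℝ) ^ r * Real.exp (l ^ 2 * r * ℓ ^ 2 / 2)) * ((Θ : ℝ) ^ n * Real.exp (l ^ 2 * n / 2)) :=
        mul_le_mul_of_nonneg_right hA (by positivity)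
    _ = T * Real.exp (l ^ 2 * (r * ℓ ^ 2 + n) / 2) := by
        rw [hT, show l ^ 2 * (r * ℓ ^ 2 + n) / 2 = l ^ 2 * r * ℓ ^ 2 / 2 + l ^ 2 * n / 2 by ring,
          Real.exp_add]
        ring

/-- upper tail -/
theorem tail (hM : S_MGF) {r n Q Θ : ℕ} (hQ : 0 < Q) (hΘ : 0 < Θ)
    (f : (Fin r → Fin Q) → (Fin n → Fin Θ) → ℝ) (ℓ : ℝ) (hℓ : 0 ≤ ℓ)
    (h1 : ∀ F s a h, |f (Function.update F s a) h - f F h| ≤ ℓ)
    (h2 : ∀ F h i b, |f F (Function.update h i b) - f F h| ≤ 1) {T m : ℝ}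
    (hT : T = (Q : ℝ) ^ r * (Θ : ℝ) ^ n) (hm : ∑ F, ∑ h, f F h = T * m) {τ v : ℝ} (hτ : 0 ≤ τ)
    (hv : 0 < v) (hvv : r * ℓ ^ 2 + n ≤ v) :
    ((univ.filter fun ω : Om r n Q Θ => m + τ ≤ f ω.1 ω.2).card : ℝ) * Real.exp (τ ^ 2 / (2 * v)) ≤
      T := by
  have h3 := mgf2 hM hQ hΘ f ℓ hℓ h1 h2 hT hm (τ / v)
  have hT0 : 0 ≤ T := by rw [hT]; positivity
  have h4 : ((univ.filter fun ω : Om r n Q Θ => m + τ ≤ f ω.1 ω.2).card : ℝ) *
      Real.exp (τ / v * τ) ≤ ∑ F, ∑ h, Real.exp (τ / v * (f F h - m)) := by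
    rw [← Fintype.sum_prod_type' (f := fun F h => Real.exp (τ / v * (f F h - m))), ← nsmul_eq_mul,
      ← sum_const]
    refine (sum_le_sum fun ω hω => ?_).trans (sum_le_sum_of_subset_of_nonneg (filter_subset _ _)
      fun ω _ _ => (Real.exp_pos (τ / v * (f ω.1 ω.2 - m))).le)
    have h5 := (mem_filter.1 hω).2
    apply Real.exp_le_exp.2
    exact mul_le_mul_of_nonneg_left (by linarith) (by positivity)
  have h5 : Real.exp ((τ / v) ^ 2 * (r * ℓ ^ 2 + n) / 2) ≤ Real.exp (τ ^ 2 / (2 * v)) := by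
    apply Real.exp_le_exp.2
    have h6 : (τ / v) ^ 2 * (r * ℓ ^ 2 + n) / 2 ≤ (τ / v) ^ 2 * v / 2 := by
      have : 0 ≤ (τ / v) ^ 2 := by positivity
      nlinarith
    refine h6.trans (le_of_eq ?_)
    field_simp
  have h6 : Real.exp (τ / v * τ) = Real.exp (τ ^ 2 / (2 * v)) * Real.exp (τ ^ 2 / (2 * v)) := by
    rw [← Real.exp_add]
    congr 1
    field_simp
    ring
  rw [h6] at h4
  have h7 := h4.trans (h3.trans (mul_le_mul_of_nonneg_left h5 hT0))
  rw [← mul_assoc] at h7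
  exact le_of_mul_le_mul_right h7 (Real.exp_pos _)

theorem card_diff {α : Type} [DecidableEq α] {A A' B : Finset α} {c : ℕ} (h1 : A ⊆ A' ∪ B)
    (h2 : A' ⊆ A ∪ B) (hB : B.card ≤ c) : |(A.card : ℝ) - A'.card| ≤ c := by
  have h3 := (card_le_card h1).trans (card_union_le _ _)
  have h4 := (card_le_card h2).trans (card_union_le _ _)
  have h5 : (A.card : ℝ) ≤ A'.card + c := by exact_mod_cast h3.trans (Nat.add_le_add_left hB _)
  have h6 : (A'.card : ℝ) ≤ A.card + c := by exact_mod_cast h4.trans (Nat.add_le_add_left hB _)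
  rw [abs_le]
  constructor <;> linarith

theorem diffF {r n Q Θ ℓ : ℕ} (t : Fin n → Finset (Fin r))
    (hℓ : ∀ s, (univ.filter fun i => s ∈ t i).card ≤ ℓ) (L : Finset (Fin Q)) (I : Finset (Fin n))
    (F : Fin r → Fin Q) (s : Fin r) (a : Fin Q) (h : Fin n → Fin Θ) :
    |((I.filter fun i => (h i : ℕ) = 0 ∧ ∀ s' ∈ t i, Function.update F s a s' ∈ L).card : ℝ) -
      ((I.filter fun i => (h i : ℕ) = 0 ∧ ∀ s' ∈ t i, F s' ∈ L).card : ℝ)| ≤ ℓ := by
  have key : ∀ i, s ∉ t i → ∀ s' ∈ t i, Function.update F s a s' = F s' := by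
    intro i hi s' hs'
    exact Function.update_of_ne (by rintro rfl; exact hi hs') _ _
  refine card_diff (B := univ.filter fun i => s ∈ t i) ?_ ?_ (hℓ s)
  · intro i hi
    obtain ⟨hi1, hi2, hi3⟩ := mem_filter.1 hi
    rw [mem_union, mem_filter, mem_filter]
    by_cases hs : s ∈ t i
    · exact Or.inr ⟨mem_univ _, hs⟩
    · exact Or.inl ⟨hi1, hi2, fun s' hs' => by rw [← key i hs s' hs']; exact hi3 s' hs'⟩
  · intro i hi
    obtain ⟨hi1, hi2, hi3⟩ := mem_filter.1 hi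
    rw [mem_union, mem_filter, mem_filter]
    by_cases hs : s ∈ t i
    · exact Or.inr ⟨mem_univ _, hs⟩
    · exact Or.inl ⟨hi1, hi2, fun s' hs' => by rw [key i hs s' hs']; exact hi3 s' hs'⟩

theorem diffh {r n Q Θ : ℕ} (t : Fin n → Finset (Fin r)) (L : Finset (Fin Q))
    (I : Finset (Fin n)) (F : Fin r → Fin Q) (h : Fin n → Fin Θ) (i₀ : Fin n) (b : Fin Θ) :
    |((I.filter fun i => (Function.update h i₀ b i : ℕ) = 0 ∧ ∀ s' ∈ t i, F s' ∈ L).card : ℝ) -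
      ((I.filter fun i => (h i : ℕ) = 0 ∧ ∀ s' ∈ t i, F s' ∈ L).card : ℝ)| ≤ 1 := by
  have key : ∀ i, i ≠ i₀ → Function.update h i₀ b i = h i := fun i hi =>
    Function.update_of_ne hi _ _
  have := card_diff (A := I.filter fun i => (Function.update h i₀ b i : ℕ) = 0 ∧
    ∀ s' ∈ t i, F s' ∈ L) (A' := I.filter fun i => (h i : ℕ) = 0 ∧ ∀ s' ∈ t i, F s' ∈ L)
    (B := {i₀}) (c := 1) ?_ ?_ (by rw [card_singleton])
  · rwa [Nat.cast_one] at this
  · intro i hi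
    obtain ⟨hi1, hi2, hi3⟩ := mem_filter.1 hi
    rw [mem_union, mem_filter, mem_singleton]
    by_cases hs : i = i₀
    · exact Or.inr hs
    · exact Or.inl ⟨hi1, by rw [← key i hs]; exact hi2, hi3⟩
  · intro i hi
    obtain ⟨hi1, hi2, hi3⟩ := mem_filter.1 hi
    rw [mem_union, mem_filter, mem_singleton]
    by_cases hs : i = i₀
    · exact Or.inr hs
    · exact Or.inl ⟨hi1, by rw [key i hs]; exact hi2, hi3⟩

theorem t_CON (hM : S_MGF) : S_CON := by
  intro k D E Q Θ n r ℓ j hk hD1 hE hQ4 hΘ1 hn0 hℓ1 hrl t hℓ hAna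
  obtain ⟨hS, hΘa, hΘb⟩ := hAna
  obtain ⟨φ, hφ⟩ : ∃ φ : ℝ, φ = (mu t j : ℝ) * (1 / (Q : ℝ)) ^ j := ⟨_, rfl⟩
  rw [← hφ] at hS hΘa hΘb
  have hQr : (4 : ℝ) ≤ Q := by exact_mod_cast hQ4
  have hQ0 : (0 : ℝ) < Q := by linarith
  have hEr : (1 : ℝ) ≤ E := by exact_mod_cast hE
  have hkr : (1 : ℝ) ≤ k := by exact_mod_cast hk
  have hℓr : (1 : ℝ) ≤ ℓ := by exact_mod_cast hℓ1
  have hnr : (1 : ℝ) ≤ n := by exact_mod_cast hn0
  have hDr : (1 : ℝ) ≤ D := by exact_mod_cast hD1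
  have hΘr : (1 : ℝ) ≤ Θ := by exact_mod_cast hΘ1
  have hΘ0 : (0 : ℝ) < Θ := by linarith
  obtain ⟨m0, hm0⟩ : ∃ m0 : ℝ, m0 = φ / Θ := ⟨_, rfl⟩
  have hma : (n : ℝ) ≤ D * m0 := by
    rw [hm0, mul_div_assoc', le_div_iff₀ hΘ0]
    linarith
  have hmb : D * m0 ≤ 4 * n := by
    rw [hm0, mul_div_assoc', div_le_iff₀ hΘ0]
    linarith
  obtain ⟨T, hT⟩ : ∃ T : ℝ, T = (Q : ℝ) ^ r * (Θ : ℝ) ^ n := ⟨_, rfl⟩
  have hT0 : 0 ≤ T := by rw [hT]; positivity
  have hQpos : 0 < Q := by omega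
  obtain ⟨v, hv⟩ : ∃ v : ℝ, v = 2 * k * n * ℓ := ⟨_, rfl⟩
  have hv0 : 0 < v := by rw [hv]; positivity
  have hvv : (r : ℝ) * (ℓ : ℝ) ^ 2 + n ≤ v := by
    have h1 : (r : ℝ) * ℓ ≤ k * n := by exact_mod_cast hrl
    have h2 : (r : ℝ) * ℓ ^ 2 ≤ k * n * ℓ := by
      calc (r : ℝ) * ℓ ^ 2 = (r * ℓ) * ℓ := by ring
        _ ≤ (k * n) * ℓ := mul_le_mul_of_nonneg_right h1 (by linarith)
    have h3 : (n : ℝ) ≤ k * n * ℓ := by
      have h4 : (1 : ℝ) ≤ k * ℓ := by nlinarith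
      calc (n : ℝ) = n * 1 := by ring
        _ ≤ n * (k * ℓ) := mul_le_mul_of_nonneg_left h4 (by linarith)
        _ = _ := by ring
    rw [hv]
    linarith
  obtain ⟨τ, hτ⟩ : ∃ τ : ℝ, τ = n / (2 * E * D) := ⟨_, rfl⟩
  have hτ0 : 0 ≤ τ := by rw [hτ]; positivity
  have hexp : τ ^ 2 / (2 * v) = (n : ℝ) / (16 * k * E ^ 2 * D ^ 2 * ℓ) := by
    rw [hτ, hv]
    field_simp
    norm_num
  have hτm : τ ≤ m0 / 2 := by
    have h1 : τ ≤ n / (2 * D) := by
      rw [hτ]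
      apply div_le_div_of_nonneg_left (by linarith) (by positivity)
      nlinarith
    have h2 : (n : ℝ) / (2 * D) ≤ m0 / 2 := by
      rw [div_le_div_iff₀ (by positivity) (by norm_num)]
      nlinarith
    exact h1.trans h2
  -- the label sets
  obtain ⟨Lc, hLc⟩ : ∃ Lc : ℕ → Finset (Fin Q), Lc = fun c => univ.filter fun x : Fin Q => (x : ℕ) = c :=
    ⟨_, rfl⟩
  have hLc1 : ∀ c < Q, (Lc c).card = 1 := by
    intro c hc
    rw [hLc, card_eq_one]
    refine ⟨⟨c, hc⟩, ?_⟩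
    ext x
    simp [Fin.ext_iff]
  obtain ⟨I, hI⟩ : ∃ I : Finset (Fin n), I = univ.filter fun i => (t i).card = j := ⟨_, rfl⟩
  have hIc : I.card = mu t j := by rw [hI]; rfl
  have hIj : ∀ i ∈ I, (t i).card = j := by
    intro i hi
    rw [hI] at hi
    exact (mem_filter.1 hi).2
  obtain ⟨X, hX⟩ : ∃ X : ℕ → Om r n Q Θ → ℝ, X = fun c ω =>
      ((I.filter fun i => (ω.2 i : ℕ) = 0 ∧ ∀ s ∈ t i, ω.1 s ∈ Lc c).card : ℝ) := ⟨_, rfl⟩
  have hbad : ∀ c < Q, ((univ.filter fun ω => X c ω < m0 / 2).card : ℝ) *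
      Real.exp ((n : ℝ) / (16 * k * E ^ 2 * D ^ 2 * ℓ)) ≤ T := by
    intro c hc
    have m1 := mom1 (r := r) (n := n) hQpos hΘ1 t (Lc c) I
    rw [hLc1 c hc, Nat.cast_one, ← hT] at m1
    have e1 : ∑ i ∈ I, (1 / (Q : ℝ)) ^ (t i).card * (1 / (Θ : ℝ)) = m0 := by
      rw [sum_congr rfl (fun i hi => by rw [hIj i hi]), sum_const, hIc, nsmul_eq_mul, hm0, hφ]
      ring
    rw [e1, Fintype.sum_prod_type] at m1
    have h3 := tail hM hQpos hΘ1 (fun F h => -((I.filter fun i => (h i : ℕ) = 0 ∧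
      ∀ s ∈ t i, F s ∈ Lc c).card : ℝ)) ℓ (by linarith)
      (fun F s a h => by
        have := diffF t hℓ (Lc c) I F s a h
        rw [neg_sub_neg, abs_sub_comm]
        exact this)
      (fun F h i b => by
        have := diffh t (Lc c) I F h i b
        rw [neg_sub_neg, abs_sub_comm]
        exact this) hT (m := -m0) (by
        simp only [sum_neg_distrib]
        rw [m1]
        ring) hτ0 hv0 hvv
    rw [hexp] at h3
    refine le_trans (mul_le_mul_of_nonneg_right ?_ (Real.exp_pos _).le) h3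
    have : (univ.filter fun ω => X c ω < m0 / 2).card ≤
        (univ.filter fun ω : Om r n Q Θ => -m0 + τ ≤ -((I.filter fun i => (ω.2 i : ℕ) = 0 ∧
      ∀ s ∈ t i, ω.1 s ∈ Lc c).card : ℝ)).card := by
      refine card_le_card fun ω hω => ?_
      have h4 := (mem_filter.1 hω).2
      rw [hX] at h4
      beta_reduce at h4
      refine mem_filter.2 ⟨mem_univ _, ?_⟩
      linarith
    exact_mod_cast this
  -- the other sets
  obtain ⟨I', hI'⟩ : ∃ I' : Finset (Fin n), I' = univ.filter fun i => (t i).card ≠ j := ⟨_, rfl⟩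
  obtain ⟨L2, hL2⟩ : ∃ L2 : Finset (Fin Q), L2 = Lc 0 ∪ Lc 1 := ⟨_, rfl⟩
  have hL2c : (L2.card : ℝ) ≤ 2 := by
    have : L2.card ≤ 2 := by
      rw [hL2]
      refine (card_union_le _ _).trans ?_
      rw [hLc1 0 (by omega), hLc1 1 (by omega)]
    exact_mod_cast this
  obtain ⟨Y, hY⟩ : ∃ Y : Om r n Q Θ → ℝ, Y = fun ω =>
      ((I'.filter fun i => (ω.2 i : ℕ) = 0 ∧ ∀ s ∈ t i, ω.1 s ∈ L2).card : ℝ) := ⟨_, rfl⟩
  have hbadY : ((univ.filter fun ω => 16 * n / (E * D) < Y ω).card : ℝ) *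
      Real.exp ((n : ℝ) / (16 * k * E ^ 2 * D ^ 2 * ℓ)) ≤ T := by
    have m1 := mom1 (r := r) (n := n) hQpos hΘ1 t L2 I'
    rw [← hT] at m1
    obtain ⟨mY, hmY⟩ : ∃ mY : ℝ, mY = ∑ i ∈ I', ((L2.card : ℝ) / Q) ^ (t i).card * (1 / (Θ : ℝ)) :=
      ⟨_, rfl⟩
    have hmY1 : mY ≤ 4 * n / (E * D) := by
      rw [hmY, ← sum_mul]
      have h2 : ∑ i ∈ I', ((L2.card : ℝ) / Q) ^ (t i).card ≤ φ / E := by
        refine le_trans (sum_le_sum fun i _ => ?_) (hI' ▸ hS)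
        exact pow_le_pow_left₀ (by positivity) (by gcongr) _
      refine (mul_le_mul_of_nonneg_right h2 (by positivity)).trans ?_
      rw [le_div_iff₀ (by positivity)]
      calc φ / E * (1 / Θ) * (E * D) = D * m0 := by
            rw [hm0]
            field_simp
        _ ≤ 4 * n := hmb
    rw [← hmY, Fintype.sum_prod_type] at m1
    have h3 := tail hM hQpos hΘ1 (fun F h => ((I'.filter fun i => (h i : ℕ) = 0 ∧
      ∀ s ∈ t i, F s ∈ L2).card : ℝ)) ℓ (by linarith)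
      (fun F s a h => diffF t hℓ L2 I' F s a h)
      (fun F h i b => diffh t L2 I' F h i b) hT (m := mY) m1 hτ0 hv0 hvv
    rw [hexp] at h3
    refine le_trans (mul_le_mul_of_nonneg_right ?_ (Real.exp_pos _).le) h3
    have : (univ.filter fun ω => 16 * n / (E * D) < Y ω).card ≤
        (univ.filter fun ω : Om r n Q Θ => mY + τ ≤ ((I'.filter fun i => (ω.2 i : ℕ) = 0 ∧
      ∀ s ∈ t i, ω.1 s ∈ L2).card : ℝ)).card := by
      refine card_le_card fun ω hω => ?_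
      have h4 := (mem_filter.1 hω).2
      rw [hY] at h4
      beta_reduce at h4
      refine mem_filter.2 ⟨mem_univ _, ?_⟩
      have h5 : τ = (n / (E * D)) / 2 := by
        rw [hτ]
        field_simp
      have h6 : (0 : ℝ) ≤ n / (E * D) := by positivity
      have h7 : (16 : ℝ) * n / (E * D) = 16 * (n / (E * D)) := by ring
      have h8 : (4 : ℝ) * n / (E * D) = 4 * (n / (E * D)) := by ring
      rw [h7] at h4
      rw [h8] at hmY1
      linarith
    exact_mod_cast this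
  -- conclusion
  have hcov : (univ.filter fun Fh : Om r n Q Θ => ¬ Good D E j t Fh.1 Fh.2) ⊆
      ((univ.filter fun ω => X 0 ω < m0 / 2) ∪ (univ.filter fun ω => X 1 ω < m0 / 2)) ∪
        (univ.filter fun ω => 16 * n / (E * D) < Y ω) := by
    intro ω hω
    have hng := (mem_filter.1 hω).2
    rw [mem_union, mem_union, mem_filter, mem_filter, mem_filter]
    by_cases a1 : X 0 ω < m0 / 2
    · exact Or.inl (Or.inl ⟨mem_univ _, a1⟩)
    by_cases a2 : X 1 ω < m0 / 2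
    · exact Or.inl (Or.inr ⟨mem_univ _, a2⟩)
    by_cases a3 : 16 * n / (E * D) < Y ω
    · exact Or.inr ⟨mem_univ _, a3⟩
    refine absurd ⟨?_, ?_, ?_⟩ hng
    · have h1 : X 0 ω ≤ ((univ.filter fun i => (ω.2 i : ℕ) = 0 ∧ ∀ s ∈ t i, (ω.1 s : ℕ) = 0).card : ℝ) := by
        rw [hX]
        beta_reduce
        have : (I.filter fun i => (ω.2 i : ℕ) = 0 ∧ ∀ s ∈ t i, ω.1 s ∈ Lc 0).card ≤
            (univ.filter fun i => (ω.2 i : ℕ) = 0 ∧ ∀ s ∈ t i, (ω.1 s : ℕ) = 0).card := by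
          refine card_le_card fun i hi => ?_
          obtain ⟨-, b1, b2⟩ := mem_filter.1 hi
          refine mem_filter.2 ⟨mem_univ _, b1, fun s hs => ?_⟩
          have := b2 s hs
          rw [hLc] at this
          exact (mem_filter.1 this).2
        exact_mod_cast this
      rw [not_lt] at a1
      have h2 : (n : ℝ) ≤ 2 * D *
          ((univ.filter fun i => (ω.2 i : ℕ) = 0 ∧ ∀ s ∈ t i, (ω.1 s : ℕ) = 0).card : ℝ) := by
        have h3 := a1.trans h1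
        have h4 := mul_le_mul_of_nonneg_left h3 (show (0 : ℝ) ≤ 2 * D by positivity)
        linarith
      exact_mod_cast h2
    · have h1 : X 1 ω ≤ ((univ.filter fun i => (ω.2 i : ℕ) = 0 ∧ ∀ s ∈ t i, (ω.1 s : ℕ) = 1).card : ℝ) := by
        rw [hX]
        beta_reduce
        have : (I.filter fun i => (ω.2 i : ℕ) = 0 ∧ ∀ s ∈ t i, ω.1 s ∈ Lc 1).card ≤
            (univ.filter fun i => (ω.2 i : ℕ) = 0 ∧ ∀ s ∈ t i, (ω.1 s : ℕ) = 1).card := by
          refine card_le_card fun i hi => ?_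
          obtain ⟨-, b1, b2⟩ := mem_filter.1 hi
          refine mem_filter.2 ⟨mem_univ _, b1, fun s hs => ?_⟩
          have := b2 s hs
          rw [hLc] at this
          exact (mem_filter.1 this).2
        exact_mod_cast this
      rw [not_lt] at a2
      have h2 : (n : ℝ) ≤ 2 * D *
          ((univ.filter fun i => (ω.2 i : ℕ) = 0 ∧ ∀ s ∈ t i, (ω.1 s : ℕ) = 1).card : ℝ) := by
        have h3 := a2.trans h1
        have h4 := mul_le_mul_of_nonneg_left h3 (show (0 : ℝ) ≤ 2 * D by positivity)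
        linarith
      exact_mod_cast h2
    · have h1 : ((univ.filter fun i => (ω.2 i : ℕ) = 0 ∧ (t i).card ≠ j ∧
          ∀ s ∈ t i, (ω.1 s : ℕ) = 0 ∨ (ω.1 s : ℕ) = 1).card : ℝ) ≤ Y ω := by
        rw [hY]
        beta_reduce
        have : (univ.filter fun i => (ω.2 i : ℕ) = 0 ∧ (t i).card ≠ j ∧
            ∀ s ∈ t i, (ω.1 s : ℕ) = 0 ∨ (ω.1 s : ℕ) = 1).card ≤
            (I'.filter fun i => (ω.2 i : ℕ) = 0 ∧ ∀ s ∈ t i, ω.1 s ∈ L2).card := by
          refine card_le_card fun i hi => ?_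
          obtain ⟨-, b1, b2, b3⟩ := mem_filter.1 hi
          refine mem_filter.2 ⟨?_, b1, fun s hs => ?_⟩
          · rw [hI']
            exact mem_filter.2 ⟨mem_univ _, b2⟩
          · rw [hL2, hLc, mem_union, mem_filter, mem_filter]
            rcases b3 s hs with h | h
            · exact Or.inl ⟨mem_univ _, h⟩
            · exact Or.inr ⟨mem_univ _, h⟩
        exact_mod_cast this
      rw [not_lt] at a3
      have h2 := h1.trans a3
      rw [le_div_iff₀ (by positivity)] at h2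
      have h3 : (E : ℝ) * D * ((univ.filter fun i => (ω.2 i : ℕ) = 0 ∧ (t i).card ≠ j ∧
          ∀ s ∈ t i, (ω.1 s : ℕ) = 0 ∨ (ω.1 s : ℕ) = 1).card : ℝ) ≤ 16 * n := by linarith
      exact_mod_cast h3
  have hc := (card_le_card hcov).trans ((card_union_le _ _).trans (Nat.add_le_add_right
    (card_union_le _ _) _))
  have hc' : ((univ.filter fun Fh : Om r n Q Θ => ¬ Good D E j t Fh.1 Fh.2).card : ℝ) ≤
        ((univ.filter fun ω => X 0 ω < m0 / 2).card : ℝ) +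
        ((univ.filter fun ω => X 1 ω < m0 / 2).card : ℝ) +
        ((univ.filter fun ω => 16 * n / (E * D) < Y ω).card : ℝ) := by exact_mod_cast hc
  have b0 := hbad 0 (by omega)
  have b1 := hbad 1 (by omega)
  have hfin := mul_le_mul_of_nonneg_right hc'
    (Real.exp_pos ((n : ℝ) / (16 * k * E ^ 2 * D ^ 2 * ℓ))).le
  rw [add_mul, add_mul] at hfin
  have h9 : ((univ.filter fun Fh : Om r n Q Θ => ¬ Good D E j t Fh.1 Fh.2).card : ℝ) *
      Real.exp ((n : ℝ) / (16 * k * E ^ 2 * D ^ 2 * ℓ)) ≤ 3 * (Q : ℝ) ^ r * (Θ : ℝ) ^ n := by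
    rw [mul_assoc 3, ← hT]
    linarith
  exact h9

end Pool.Agent.L0h37.HN
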