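import Pool.Agent.L0h55.LT2.Fin
import Pool.Agent.L0h58.HN.Stm

/-!
# Project HN (helper58), module DEN2: dense rectangles contain almost the right number of zeros
-/

set_option autoImplicit false
set_option linter.all false
set_option linter.unusedSectionVars false
set_option maxHeartbeats 2000000

namespace Pool.Agent.L0h37.HN

open Finset Pool.Agent.L0h32.LT2 Pool.Agent.L0h55.LT2 Pool.Agent.L0h58.HN

open Classical in
theorem dense_one2 {N : ℕ} {F X : Type} [Field F] [Fintype F] (S : Finset X)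
    (a : X → Fin N → (Fin 6 → F)) (I : Finset (Fin N)) (h : Dense2 S a I) (j : Fin N) (hj : j ∉ I)
    (z : Fin 6 → F) :
    ((S.filter fun x => a x j = z).card : ℝ) ≤ S.card / (Fintype.card F : ℝ) ^ 5 := by
  have hq : (0 : ℝ) < Fintype.card F := by exact_mod_cast Fintype.card_pos
  have h1 := h {j} (fun _ => z) (by rw [card_singleton]; norm_num) (by simpa using hj)
  have e : (S.filter fun x => ∀ i ∈ ({j} : Finset (Fin N)), a x i = z) =
      S.filter fun x => a x j = z := by
    ext x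
    simp
  rw [e, card_singleton, mul_one] at h1
  rw [le_div_iff₀ (by positivity)]
  exact_mod_cast h1

open Classical in
theorem dense_two2 {N : ℕ} {F X : Type} [Field F] [Fintype F] (S : Finset X)
    (a : X → Fin N → (Fin 6 → F)) (I : Finset (Fin N)) (h : Dense2 S a I) (j j' : Fin N)
    (hjj : j ≠ j') (hj : j ∉ I) (hj' : j' ∉ I) (z z' : Fin 6 → F) :
    ((S.filter fun x => a x j = z ∧ a x j' = z').card : ℝ) ≤
      S.card / (Fintype.card F : ℝ) ^ 10 := by
  have hq : (0 : ℝ) < Fintype.card F := by exact_mod_cast Fintype.card_pos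
  have h1 := h {j, j'} (fun i => if i = j then z else z') (by rw [card_pair hjj]) (by
    rw [Finset.disjoint_left]
    intro i hi
    rw [mem_insert, mem_singleton] at hi
    rcases hi with hi | hi
    · rw [hi]; exact hj
    · rw [hi]; exact hj')
  have e : (S.filter fun x => ∀ i ∈ ({j, j'} : Finset (Fin N)), a x i = if i = j then z else z') =
      S.filter fun x => a x j = z ∧ a x j' = z' := by
    ext x
    simp only [mem_filter, mem_insert, mem_singleton, forall_eq_or_imp, forall_eq]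
    rw [if_neg hjj.symm]
    simp
  rw [e, card_pair hjj] at h1
  rw [le_div_iff₀ (by positivity)]
  have : 5 * 2 = 10 := by norm_num
  rw [this] at h1
  exact_mod_cast h1

theorem t_DEN2 : S_DEN2 := by
  intro N F X Y _ _ _ S T a b I I' hN hq hS hT
  classical
  obtain ⟨χ, hχ⟩ := exists_chr F
  obtain ⟨q, hqd⟩ : ∃ q : ℝ, q = (Fintype.card F : ℝ) := ⟨_, rfl⟩
  have hNr : (4 : ℝ) ≤ N := by exact_mod_cast hN
  have hqN : (N : ℝ) ^ 2 ≤ q := by
    rw [hqd]
    exact_mod_cast hq
  have hq16 : 16 ≤ q := by nlinarith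
  have hqp : 0 < q := by linarith
  obtain ⟨R, hR⟩ : ∃ R, R = S ×ˢ T := ⟨_, rfl⟩
  obtain ⟨K, hK⟩ : ∃ K : ℝ, K = (R.card : ℝ) := ⟨_, rfl⟩
  have hKc : K = (S.card : ℝ) * T.card := by rw [hK, hR, card_product]; push_cast; ring
  have hK0 : 0 ≤ K := by rw [hK]; exact Nat.cast_nonneg _
  obtain ⟨t, ht⟩ : ∃ t : Fin N → X × Y → F, t = fun j p => qf (a p.1 j + b p.2 j) := ⟨_, rfl⟩
  obtain ⟨M, hM⟩ : ∃ M, M = univ \ (I ∪ I') := ⟨_, rfl⟩
  have hMI : ∀ j ∈ M, j ∉ I ∧ j ∉ I' := by
    intro j hj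
    rw [hM, mem_sdiff, mem_union] at hj
    push Not at hj
    exact hj.2
  obtain ⟨m, hm⟩ : ∃ m : ℝ, m = (M.card : ℝ) := ⟨_, rfl⟩
  have hm0 : 0 ≤ m := by rw [hm]; exact Nat.cast_nonneg _
  have hm1 : m ≤ N := by
    have : M.card ≤ N := by
      have := card_le_univ M
      rwa [Fintype.card_fin] at this
    rw [hm]
    exact_mod_cast this
  have hm2 : (N : ℝ) ≤ m + I.card + I'.card := by
    have h1 : N ≤ M.card + (I ∪ I').card := by
      have := Finset.card_sdiff_add_card (s := (univ : Finset (Fin N))) (t := I ∪ I')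
      rw [← hM] at this
      have h2 := Finset.card_le_card (Finset.subset_union_left : (univ : Finset (Fin N)) ⊆
        univ ∪ (I ∪ I'))
      rw [Finset.card_univ, Fintype.card_fin] at h2
      omega
    have h2 := Finset.card_union_le I I'
    have h3 : N ≤ M.card + I.card + I'.card := by omega
    rw [hm]
    exact_mod_cast h3
  have hE1 : ∀ j ∈ M, ∀ l : F, l ≠ 0 → |∑ p ∈ R, χ (l * t j p)| ≤ 1 / q ^ 2 * R.card := by
    intro j hj l hl
    rw [hR, ht]
    refine one_block hχ S T (fun x => a x j) (fun y => b y j) (S.card / q ^ 5) (T.card / q ^ 5)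
      (1 / q ^ 2) (by positivity) (fun z => hqd ▸ dense_one2 S a I hS j (hMI j hj).1 z)
      (fun z => hqd ▸ dense_one2 T b I' hT j (hMI j hj).2 z) ?_ l hl
    rw [← hqd]
    refine le_of_eq ?_
    field_simp
  have hE2 : ∀ j ∈ M, ∀ j' ∈ M, j ≠ j' → ∀ l l' : F, l ≠ 0 → l' ≠ 0 →
      |∑ p ∈ R, χ (l * t j p) * χ (l' * t j' p)| ≤ (1 / q ^ 2) ^ 2 * R.card := by
    intro j hj j' hj' hjj l l' hl hl'
    rw [hR, ht]
    refine two_blocks hχ S T (fun x => a x j) (fun x => a x j') (fun y => b y j)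
      (fun y => b y j') (S.card / q ^ 10) (T.card / q ^ 10) ((1 / q ^ 2) ^ 2) (by positivity)
      (fun z z' => hqd ▸ dense_two2 S a I hS j j' hjj (hMI j hj).1 (hMI j' hj').1 z z')
      (fun z z' => hqd ▸ dense_two2 T b I' hT j j' hjj (hMI j hj).2 (hMI j' hj').2 z z') ?_
      l l' hl hl'
    rw [← hqd]
    refine le_of_eq ?_
    field_simp
  have hc1 := fun j hj => cnt1 hχ R (t j) (1 / q ^ 2) (hE1 j hj)
  have hc2 := fun j hj j' hj' hjj => cnt2 hχ R (t j) (t j') (1 / q ^ 2) (by positivity)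
    (hE1 j hj) (hE1 j' hj') (hE2 j hj j' hj' hjj)
  rw [← hqd, ← hK] at hc1 hc2
  -- simpler bounds
  have hδ : (q - 1) * (1 / q ^ 2) ≤ 1 / q := by
    rw [mul_one_div, div_le_div_iff₀ (by positivity) hqp]
    nlinarith
  have hδ0 : 0 ≤ (q - 1) * (1 / q ^ 2) := by
    apply mul_nonneg (by linarith)
    positivity
  have hq1 : 1 / q ≤ 1 / 16 := by
    rw [div_le_div_iff₀ hqp (by norm_num)]
    linarith
  have hq0 : 0 ≤ 1 / q := by positivity
  have b2 : ∀ j ∈ M, (1 - 1 / q) * K ≤ q * ∑ p ∈ R, ind (t j p) := by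
    intro j hj
    refine le_trans ?_ (hc1 j hj).2
    exact mul_le_mul_of_nonneg_right (by linarith) hK0
  have b3 : ∀ j ∈ M, ∀ j' ∈ M, j ≠ j' →
      q ^ 2 * ∑ p ∈ R, ind (t j p) * ind (t j' p) ≤ (17 / 16) ^ 2 * K := by
    intro j hj j' hj' hjj
    refine (hc2 j hj j' hj' hjj).trans ?_
    refine mul_le_mul_of_nonneg_right ?_ hK0
    exact pow_le_pow_left₀ (by linarith) (by linarith) 2
  -- first and second moments
  obtain ⟨A, hA⟩ : ∃ A : ℝ, A = ∑ p ∈ R, ∑ j ∈ M, ind (t j p) := ⟨_, rfl⟩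
  obtain ⟨B, hB⟩ : ∃ B : ℝ, B = ∑ p ∈ R, (∑ j ∈ M, ind (t j p)) ^ 2 := ⟨_, rfl⟩
  have hA1 : m * ((1 - 1 / q) * K) ≤ q * A := by
    rw [hA, Finset.sum_comm, Finset.mul_sum, hm, ← nsmul_eq_mul, ← Finset.sum_const]
    exact Finset.sum_le_sum fun j hj => b2 j hj
  have hB1 : q ^ 2 * (B - A) ≤ m ^ 2 * ((17 / 16) ^ 2 * K) := by
    have h1 : B = ∑ j ∈ M, ∑ j' ∈ M, ∑ p ∈ R, ind (t j p) * ind (t j' p) := by
      rw [hB]
      have e1 : ∀ p, (∑ j ∈ M, ind (t j p)) ^ 2 =
          ∑ j ∈ M, ∑ j' ∈ M, ind (t j p) * ind (t j' p) := by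
        intro p
        rw [sq, Finset.sum_mul_sum]
      rw [Finset.sum_congr rfl fun p _ => e1 p, Finset.sum_comm]
      refine Finset.sum_congr rfl fun j _ => ?_
      rw [Finset.sum_comm]
    have hA2 : A = ∑ j ∈ M, ∑ j' ∈ M, if j = j' then ∑ p ∈ R, ind (t j p) else 0 := by
      rw [hA, Finset.sum_comm]
      refine Finset.sum_congr rfl fun j hj => ?_
      rw [Finset.sum_ite_eq, if_pos hj]
    have h2 : ∀ j ∈ M, ∀ j' ∈ M, q ^ 2 * (∑ p ∈ R, ind (t j p) * ind (t j' p) -
        if j = j' then ∑ p ∈ R, ind (t j p) else 0) ≤ (17 / 16) ^ 2 * K := by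
      intro j hj j' hj'
      split_ifs with hjj
      · rw [← hjj]
        have e2 : ∑ p ∈ R, ind (t j p) * ind (t j p) = ∑ p ∈ R, ind (t j p) :=
          Finset.sum_congr rfl fun p _ => ind_sq _
        rw [e2, sub_self, mul_zero]
        positivity
      · rw [sub_zero]
        exact b3 j hj j' hj' hjj
    rw [h1, hA2, ← Finset.sum_sub_distrib, Finset.mul_sum]
    have h3 : ∀ j ∈ M, q ^ 2 * (∑ j' ∈ M, ∑ p ∈ R, ind (t j p) * ind (t j' p) -
        ∑ j' ∈ M, if j = j' then ∑ p ∈ R, ind (t j p) else 0) ≤ m * ((17 / 16) ^ 2 * K) := by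
      intro j hj
      rw [← Finset.sum_sub_distrib, Finset.mul_sum, hm, ← nsmul_eq_mul, ← Finset.sum_const]
      exact Finset.sum_le_sum fun j' hj' => h2 j hj j' hj'
    refine (Finset.sum_le_sum h3).trans (le_of_eq ?_)
    rw [Finset.sum_const, nsmul_eq_mul, ← hm]
    ring
  obtain ⟨H, hH⟩ : ∃ H : ℝ, H = ((hits S T a b).card : ℝ) := ⟨_, rfl⟩
  have hbon : A - (B - A) / 2 ≤ H := by
    have hh : ∑ p ∈ R, (if p ∈ hits S T a b then (1 : ℝ) else 0) = H := by
      rw [Finset.sum_boole, hH]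
      congr 2
      ext p
      rw [mem_filter]
      constructor
      · exact fun h => h.2
      · intro h
        refine ⟨?_, h⟩
        rw [hR]
        unfold hits at h
        exact (mem_filter.1 h).1
    rw [← hh, hA, hB, ← Finset.sum_sub_distrib, Finset.sum_div, ← Finset.sum_sub_distrib]
    refine Finset.sum_le_sum fun p hp => ?_
    obtain ⟨w, hw⟩ : ∃ w : ℕ, ∑ j ∈ M, ind (t j p) = w := by
      refine ⟨(M.filter fun j => t j p = 0).card, ?_⟩
      unfold ind
      rw [Finset.sum_boole]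
    split_ifs with hin
    · rw [hw]
      rcases w with _ | w
      · norm_num
      · push_cast
        rcases w with _ | w
        · norm_num
        · push_cast
          have : (0 : ℝ) ≤ w := Nat.cast_nonneg _
          nlinarith
    · have h0 : ∑ j ∈ M, ind (t j p) = 0 := by
        refine Finset.sum_eq_zero fun j _ => ?_
        unfold ind
        rw [if_neg]
        intro h0
        apply hin
        unfold hits
        rw [mem_filter]
        refine ⟨hR ▸ hp, j, ?_⟩
        rw [ht] at h0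
        exact h0
      rw [h0]
      norm_num
  -- conclusion
  have hfin : (m - 1) * K ≤ q * H := by
    have h1 : q * (A - (B - A) / 2) ≤ q * H := mul_le_mul_of_nonneg_left hbon hqp.le
    have h2 : q * ((B - A) / 2) ≤ m ^ 2 / q * ((17 / 16) ^ 2 * K) / 2 := by
      have h3 : q * (q * ((B - A) / 2)) ≤ q * (m ^ 2 / q * ((17 / 16) ^ 2 * K) / 2) := by
        have h4 : q * (m ^ 2 / q * ((17 / 16) ^ 2 * K) / 2) = m ^ 2 * ((17 / 16) ^ 2 * K) / 2 := by
          field_simp
        rw [h4]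
        linarith
      exact le_of_mul_le_mul_left h3 hqp
    have h5 : m ^ 2 / q ≤ 1 := by
      rw [div_le_one hqp]
      refine le_trans ?_ hqN
      exact pow_le_pow_left₀ hm0 hm1 2
    have h6 : m ^ 2 / q * ((17 / 16) ^ 2 * K) / 2 ≤ 1 * ((17 / 16) ^ 2 * K) / 2 := by
      have : 0 ≤ (17 / 16 : ℝ) ^ 2 * K := by positivity
      have := mul_le_mul_of_nonneg_right h5 this
      linarith
    have h7 : m * (1 / q) ≤ 1 / 4 := by
      rw [mul_one_div, div_le_div_iff₀ hqp (by norm_num)]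
      nlinarith
    have h8 : m * (1 / q) * K ≤ 1 / 4 * K := mul_le_mul_of_nonneg_right h7 hK0
    have h9 : m * ((1 - 1 / q) * K) = m * K - m * (1 / q) * K := by ring
    rw [h9] at hA1
    have h10 : q * (A - (B - A) / 2) = q * A - q * ((B - A) / 2) := by ring
    rw [h10] at h1
    nlinarith
  have hgoal : (N : ℝ) * (S.card * T.card) ≤
      (Fintype.card F : ℝ) * (hits S T a b).card + (I.card + I'.card + 1) * (S.card * T.card) := by
    rw [← hKc, ← hqd, ← hH]
    have h1 : ((N : ℝ) - I.card - I'.card - 1) * K ≤ (m - 1) * K :=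
      mul_le_mul_of_nonneg_right (by linarith) hK0
    linarith
  exact_mod_cast hgoal

end Pool.Agent.L0h37.HN
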