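import Pool.Agent.L0h58.HN.Stm
import Pool.Agent.L0h6.LT2.Sel2

/-!
# Project HN (helper58), module SELX: the parameters from the numbers of an accurate sample
-/

set_option autoImplicit false
set_option linter.all false
set_option maxHeartbeats 2000000

open Finset
open scoped Classical

namespace Pool.Agent.L0h37.HN

open Pool.Agent.L0h32.LT Pool.Agent.L0h32.LT2 Pool.Agent.L0h51.LT Pool.Agent.L0h6.LT2
open Pool.Agent.L0h58.HN

theorem nu_mu {n r : ℕ} (t : Fin n → Finset (Fin r)) (j : ℕ) : nu t j = mu t j := rfl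

theorem acc_le {n r J e σ : ℕ} {w : ℕ → ℕ} {t : Fin n → Finset (Fin r)} (hσ : 1 ≤ σ)
    (h : Acc J e σ w t) {i : ℕ} (hi1 : 1 ≤ i) (hi2 : i ≤ J) :
    |(w i : ℝ) * n / σ - mu t i| ≤ n / 2 ^ e := by
  have h1 := h i (mem_Icc.2 ⟨hi1, hi2⟩)
  have hσ0 : (0 : ℝ) < σ := by exact_mod_cast hσ
  have h2 : (w i : ℝ) * n / σ - mu t i = ((w i : ℝ) * n - σ * mu t i) / σ := by
    field_simp
  rw [h2, abs_div, abs_of_pos hσ0, div_le_div_iff₀ hσ0 (by positivity)]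
  calc |(w i : ℝ) * n - σ * mu t i| * 2 ^ e = 2 ^ e * |(w i : ℝ) * n - σ * mu t i| := by ring
    _ ≤ σ * n := h1
    _ = n * σ := by ring

/-- the estimates for one pattern -/
theorem ana_of {k y n r : ℕ} (hk : 1 ≤ k) (hn : 1 ≤ n) {J lm D Q u j θ : ℕ} (hJ : J = 2 * k)
    (hlm : lm = 2 * J + y + 3) (hu2 : 2 ≤ u) (hj1 : 1 ≤ j) (hjJ : j ≤ J)
    (hQ : Q = 2 ^ (lm * u)) (W : ℕ → ℝ) {L ψ δ : ℝ} (hL : L = 2 ^ lm)
    (hψ : ψ = W j * (1 / (Q : ℝ)) ^ j)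
    (hcmp : ∀ j', 1 ≤ j' → j' ≤ J → j' ≠ j → W j' * (1 / (Q : ℝ)) ^ j' ≤ ψ / L)
    (t : Fin n → Finset (Fin r)) (hne : ∀ i, (t i).Nonempty) (hsum : ∑ i, (t i).card ≤ k * n)
    (hacc : ∀ i, 1 ≤ i → i ≤ J → |W i - mu t i| ≤ δ)
    (hbig : (n : ℝ) ≤ 4 * J * (Q : ℝ) ^ J * ψ) (hδ : δ ≤ ψ / (16 * L)) (hψ0 : 0 < ψ)
    (hθ1 : ((2 ^ θ : ℕ) : ℝ) * n ≤ 15 / 16 * ψ * D)
    (hθ2 : 15 / 16 * ψ * D ≤ 2 * ((2 ^ θ : ℕ) : ℝ) * n) :
    Ana D (2 ^ y) Q (2 ^ θ) j t := by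
  have hJ1 : 1 ≤ J := by omega
  have hJ2 : J ≤ 2 ^ J := Nat.lt_two_pow_self.le
  have hQ4 : 4 ≤ Q := by
    rw [hQ, show (4 : ℕ) = 2 ^ 2 by norm_num]
    exact Nat.pow_le_pow_right (by norm_num) (by nlinarith)
  have hQr : (4 : ℝ) ≤ Q := by exact_mod_cast hQ4
  have hQ0 : (0 : ℝ) < Q := by linarith
  have hL1 : 1 < L := by
    rw [hL]
    exact one_lt_pow₀ (by norm_num) (by omega)
  have hL0 : (0 : ℝ) < L := by linarith
  have hq1 : (1 : ℝ) / Q ≤ 1 := by rw [div_le_one hQ0]; linarith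
  have hq0 : (0 : ℝ) ≤ 1 / Q := by positivity
  have hnr : (0 : ℝ) < n := by exact_mod_cast hn
  obtain ⟨φ, hφ⟩ : ∃ φ : ℝ, φ = (mu t j : ℝ) * (1 / (Q : ℝ)) ^ j := ⟨_, rfl⟩
  have hδ0 : 0 ≤ δ := (abs_nonneg _).trans (hacc j hj1 hjJ)
  have hδ16 : δ ≤ ψ / 16 := by
    refine hδ.trans ?_
    rw [div_le_div_iff₀ (by positivity) (by norm_num)]
    nlinarith
  have hpj : (1 / (Q : ℝ)) ^ j ≤ 1 := pow_le_one₀ hq0 hq1
  have hpj0 : 0 ≤ (1 / (Q : ℝ)) ^ j := by positivity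
  have hac := abs_le.1 (hacc j hj1 hjJ)
  have hφlo : 15 / 16 * ψ ≤ φ := by
    have h1 : (W j - δ) * (1 / (Q : ℝ)) ^ j ≤ φ := by
      rw [hφ]
      exact mul_le_mul_of_nonneg_right (by linarith) hpj0
    have h2 : (W j - δ) * (1 / (Q : ℝ)) ^ j = ψ - δ * (1 / (Q : ℝ)) ^ j := by rw [hψ]; ring
    have h3 : δ * (1 / (Q : ℝ)) ^ j ≤ δ := mul_le_of_le_one_right hδ0 hpj
    rw [h2] at h1
    linarith
  have hφhi : φ ≤ 17 / 16 * ψ := by
    have h1 : φ ≤ (W j + δ) * (1 / (Q : ℝ)) ^ j := by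
      rw [hφ]
      exact mul_le_mul_of_nonneg_right (by linarith) hpj0
    have h2 : (W j + δ) * (1 / (Q : ℝ)) ^ j = ψ + δ * (1 / (Q : ℝ)) ^ j := by rw [hψ]; ring
    have h3 : δ * (1 / (Q : ℝ)) ^ j ≤ δ := mul_le_of_le_one_right hδ0 hpj
    rw [h2] at h1
    linarith
  have hφ0 : 0 < φ := by linarith
  have hcmp' : ∀ j', 1 ≤ j' → j' ≤ J → j' ≠ j → (mu t j' : ℝ) * (1 / (Q : ℝ)) ^ j' ≤ 2 * φ / L := by
    intro j' h1 h2 h3
    have h4 := abs_le.1 (hacc j' h1 h2)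
    have h5 : (1 / (Q : ℝ)) ^ j' ≤ 1 := pow_le_one₀ hq0 hq1
    have h6 : 0 ≤ (1 / (Q : ℝ)) ^ j' := by positivity
    calc (mu t j' : ℝ) * (1 / (Q : ℝ)) ^ j' ≤ (W j' + δ) * (1 / (Q : ℝ)) ^ j' :=
          mul_le_mul_of_nonneg_right (by linarith) h6
      _ = W j' * (1 / (Q : ℝ)) ^ j' + δ * (1 / (Q : ℝ)) ^ j' := by ring
      _ ≤ ψ / L + ψ / (16 * L) := add_le_add (hcmp j' h1 h2 h3)
          ((mul_le_of_le_one_right hδ0 h5).trans hδ)
      _ = 17 / 16 * ψ / L := by field_simp; norm_num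
      _ ≤ 2 * φ / L := div_le_div_of_nonneg_right (by linarith) hL0.le
  refine ⟨?_, ?_, ?_⟩
  · -- the other multiplicities
    rw [← hφ]
    have h20 : (0 : ℝ) ≤ 2 / Q := by positivity
    have h21 : 2 / (Q : ℝ) ≤ 1 := by rw [div_le_one hQ0]; linarith
    have hsplit : ∑ i ∈ univ.filter (fun i => (t i).card ≠ j), (2 / (Q : ℝ)) ^ (t i).card =
        ∑ i ∈ (univ.filter (fun i => (t i).card ≠ j)).filter (fun i => (t i).card ≤ J),
          (2 / (Q : ℝ)) ^ (t i).card +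
        ∑ i ∈ (univ.filter (fun i => (t i).card ≠ j)).filter (fun i => ¬ (t i).card ≤ J),
          (2 / (Q : ℝ)) ^ (t i).card := (sum_filter_add_sum_filter_not _ _ _).symm
    have hA : ∑ i ∈ (univ.filter (fun i => (t i).card ≠ j)).filter (fun i => (t i).card ≤ J),
          (2 / (Q : ℝ)) ^ (t i).card ≤ φ / (2 * ((2 ^ y : ℕ) : ℝ)) := by
      have h1 : ∑ i ∈ (univ.filter (fun i => (t i).card ≠ j)).filter (fun i => (t i).card ≤ J),
          (2 / (Q : ℝ)) ^ (t i).card ≤ ∑ j' ∈ (Icc 1 J).erase j,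
            (mu t j' : ℝ) * (2 / (Q : ℝ)) ^ j' := by
        rw [← sum_fiberwise_of_maps_to (s := (univ.filter (fun i => (t i).card ≠ j)).filter
          (fun i => (t i).card ≤ J)) (t := (Icc 1 J).erase j) (g := fun i => (t i).card)]
        · refine sum_le_sum fun j' _ => ?_
          rw [sum_congr rfl (g := fun _ => (2 / (Q : ℝ)) ^ j')
            (fun i hi => by rw [(mem_filter.1 hi).2]), sum_const, nsmul_eq_mul]
          refine mul_le_mul_of_nonneg_right ?_ (by positivity)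
          have : ((((univ.filter (fun i => (t i).card ≠ j)).filter
              (fun i => (t i).card ≤ J)).filter fun i => (t i).card = j').card) ≤ mu t j' := by
            unfold mu
            refine card_le_card fun i hi => ?_
            exact mem_filter.2 ⟨mem_univ _, (mem_filter.1 hi).2⟩
          exact_mod_cast this
        · intro i hi
          obtain ⟨hi1, hi2⟩ := mem_filter.1 hi
          have hi3 := (mem_filter.1 hi1).2
          have := (hne i).card_pos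
          rw [mem_erase, mem_Icc]
          exact ⟨hi3, this, hi2⟩
      have h2 : ∀ j' ∈ (Icc 1 J).erase j, (mu t j' : ℝ) * (2 / (Q : ℝ)) ^ j' ≤
          (2 * φ / L) * 2 ^ j' := by
        intro j' hj'
        rw [mem_erase, mem_Icc] at hj'
        have h3 := hcmp' j' hj'.2.1 hj'.2.2 hj'.1
        calc (mu t j' : ℝ) * (2 / (Q : ℝ)) ^ j' = ((mu t j' : ℝ) * (1 / (Q : ℝ)) ^ j') * 2 ^ j' := by
              rw [show (2 : ℝ) / Q = 1 / Q * 2 by ring, mul_pow]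
              ring
          _ ≤ (2 * φ / L) * 2 ^ j' := mul_le_mul_of_nonneg_right h3 (by positivity)
      have h4 : ∑ j' ∈ (Icc 1 J).erase j, (2 : ℝ) ^ j' ≤ 2 ^ (J + 1) := by
        calc ∑ j' ∈ (Icc 1 J).erase j, (2 : ℝ) ^ j' ≤ ∑ j' ∈ range (J + 1), (2 : ℝ) ^ j' := by
              refine sum_le_sum_of_subset_of_nonneg (fun x hx => ?_) fun _ _ _ => by positivity
              rw [mem_erase, mem_Icc] at hx
              rw [mem_range]
              omega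
          _ ≤ _ := by
            rw [geom_sum_eq (by norm_num)]
            norm_num
      have h5 : ∑ i ∈ (univ.filter (fun i => (t i).card ≠ j)).filter (fun i => (t i).card ≤ J),
          (2 / (Q : ℝ)) ^ (t i).card ≤ (2 * φ / L) * 2 ^ (J + 1) := by
        refine h1.trans ((sum_le_sum h2).trans ?_)
        rw [← mul_sum]
        exact mul_le_mul_of_nonneg_left h4 (by positivity)
      refine h5.trans ?_
      rw [div_mul_eq_mul_div, div_le_div_iff₀ hL0 (by positivity)]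
      have h6 : 2 * φ * 2 ^ (J + 1) * (2 * ((2 ^ y : ℕ) : ℝ)) = φ * 2 ^ (J + y + 3) := by
        push_cast
        ring
      rw [h6]
      refine mul_le_mul_of_nonneg_left ?_ hφ0.le
      rw [hL, hlm]
      exact pow_le_pow_right₀ (by norm_num) (by omega)
    have hB : ∑ i ∈ (univ.filter (fun i => (t i).card ≠ j)).filter (fun i => ¬ (t i).card ≤ J),
          (2 / (Q : ℝ)) ^ (t i).card ≤ φ / (2 * ((2 ^ y : ℕ) : ℝ)) := by
      have h1 : ∑ i ∈ (univ.filter (fun i => (t i).card ≠ j)).filter (fun i => ¬ (t i).card ≤ J),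
          (2 / (Q : ℝ)) ^ (t i).card ≤ ((univ.filter fun i => ¬ (t i).card ≤ J).card : ℝ) *
            (2 / (Q : ℝ)) ^ (J + 1) := by
        refine (sum_le_sum_of_subset_of_nonneg (t := univ.filter fun i => ¬ (t i).card ≤ J)
          (fun i hi => mem_filter.2 ⟨mem_univ _, (mem_filter.1 hi).2⟩)
          fun _ _ _ => by positivity).trans ?_
        rw [← nsmul_eq_mul, ← sum_const]
        refine sum_le_sum fun i hi => ?_
        have := (mem_filter.1 hi).2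
        exact pow_le_pow_of_le_one h20 h21 (by omega)
      have h2 := card_gt hk t hsum
      rw [← hJ] at h2
      have h2r : ((univ.filter fun i => ¬ (t i).card ≤ J).card : ℝ) ≤ 4 * J * (Q : ℝ) ^ J * φ := by
        have h3 : 2 * ((univ.filter fun i => ¬ (t i).card ≤ J).card : ℝ) ≤ n := by exact_mod_cast h2
        have h4 : 4 * J * (Q : ℝ) ^ J * ψ ≤ 2 * (4 * J * (Q : ℝ) ^ J * φ) := by
          have h5 : (0 : ℝ) ≤ 4 * J * (Q : ℝ) ^ J := by positivity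
          nlinarith
        linarith
      refine h1.trans ((mul_le_mul_of_nonneg_right h2r (by positivity)).trans ?_)
      rw [div_pow, mul_div_assoc', div_le_div_iff₀ (by positivity) (by positivity), pow_succ (Q : ℝ)]
      have h3 : 4 * J * 2 ^ (J + 1) * (2 * 2 ^ y) ≤ Q := by
        rw [hQ]
        calc 4 * J * 2 ^ (J + 1) * (2 * 2 ^ y) ≤ 4 * 2 ^ J * 2 ^ (J + 1) * (2 * 2 ^ y) :=
              Nat.mul_le_mul_right _ (Nat.mul_le_mul_right _ (Nat.mul_le_mul_left _ hJ2))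
          _ = 2 ^ (2 * J + y + 4) := by ring
          _ ≤ 2 ^ (lm * u) := Nat.pow_le_pow_right (by norm_num) (by nlinarith)
      have h3r : 4 * (J : ℝ) * 2 ^ (J + 1) * (2 * ((2 ^ y : ℕ) : ℝ)) ≤ Q := by
        push_cast
        exact_mod_cast h3
      calc 4 * (J : ℝ) * (Q : ℝ) ^ J * φ * 2 ^ (J + 1) * (2 * ((2 ^ y : ℕ) : ℝ))
          = (4 * (J : ℝ) * 2 ^ (J + 1) * (2 * ((2 ^ y : ℕ) : ℝ))) * (φ * (Q : ℝ) ^ J) := by ring
        _ ≤ Q * (φ * (Q : ℝ) ^ J) := mul_le_mul_of_nonneg_right h3r (by positivity)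
        _ = _ := by ring
    rw [hsplit]
    refine (add_le_add hA hB).trans (le_of_eq ?_)
    have : (0 : ℝ) < ((2 ^ y : ℕ) : ℝ) := by positivity
    field_simp
    ring
  · rw [← hφ]
    exact hθ1.trans (mul_le_mul_of_nonneg_right hφlo (by positivity))
  · rw [← hφ]
    have hD0 : (0 : ℝ) ≤ D := by positivity
    have h1 : φ * D ≤ 17 / 16 * ψ * D := mul_le_mul_of_nonneg_right hφhi hD0
    have h2 : 0 ≤ ψ * D := by positivity
    nlinarith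

theorem t_SELX : S_SELX := by
  intro k y n σ hk hn hσ w
  by_cases hex : ∃ (r : ℕ) (t : Fin n → Finset (Fin r)), (∀ i, (t i).Nonempty) ∧
      (∑ i, (t i).card ≤ k * n) ∧ Acc (2 * k) (ee (2 * k) y) σ w t
  swap
  · refine ⟨1, 1, 0, le_rfl, by omega, le_rfl, by omega, Nat.zero_le _, fun r t h1 h2 h3 => ?_⟩
    exact absurd ⟨r, t, h1, h2, h3⟩ hex
  obtain ⟨r₀, t₀, hne₀, hsum₀, hacc₀⟩ := hex
  obtain ⟨J, hJ⟩ : ∃ J : ℕ, J = 2 * k := ⟨_, rfl⟩
  rw [← hJ] at hacc₀ ⊢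
  obtain ⟨lm, hlm⟩ : ∃ lm : ℕ, lm = lam J y := ⟨_, rfl⟩
  have hlm' : lm = 2 * J + y + 3 := hlm
  obtain ⟨D, hD⟩ : ∃ D : ℕ, D = 2 ^ dx J y := ⟨_, rfl⟩
  have hdx : dx J y = 2 * lm * J ^ 2 + 2 * J + 4 := by rw [hlm]; rfl
  have hee : ee J y = 2 * lm * J ^ 2 + lm + 2 * J + 6 := by rw [hlm]; rfl
  rw [← hlm]
  have hJ1 : 1 ≤ J := by omega
  have hJ2 : J ≤ 2 ^ J := Nat.lt_two_pow_self.le
  have hJ2r : (J : ℝ) ≤ 2 ^ J := by exact_mod_cast hJ2
  have hnr : (0 : ℝ) < n := by exact_mod_cast hn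
  have hσ0 : (0 : ℝ) < σ := by exact_mod_cast hσ
  have hJr : (1 : ℝ) ≤ J := by exact_mod_cast hJ1
  obtain ⟨W, hW⟩ : ∃ W : ℕ → ℝ, W = fun i => (w i : ℝ) * n / σ := ⟨_, rfl⟩
  obtain ⟨δ, hδ⟩ : ∃ δ : ℝ, δ = (n : ℝ) / 2 ^ ee J y := ⟨_, rfl⟩
  have hacc : ∀ (r : ℕ) (t : Fin n → Finset (Fin r)), Acc J (ee J y) σ w t →
      ∀ i, 1 ≤ i → i ≤ J → |W i - mu t i| ≤ δ := by
    intro r t ht i h1 h2
    rw [hW, hδ]
    exact acc_le hσ ht h1 h2
  obtain ⟨js, hs1, hs2, hs3⟩ := exists_star hk t₀ hne₀ hsum₀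
  rw [← hJ] at hs2 hs3
  have hs3r : (n : ℝ) ≤ 2 * J * mu t₀ js := by exact_mod_cast hs3
  have hδn : 4 * J * δ ≤ n := by
    rw [hδ, mul_div_assoc', div_le_iff₀ (by positivity), mul_comm]
    refine mul_le_mul_of_nonneg_left ?_ hnr.le
    calc 4 * (J : ℝ) ≤ 4 * 2 ^ J := by linarith
      _ = 2 ^ (J + 2) := by ring
      _ ≤ 2 ^ ee J y := pow_le_pow_right₀ (by norm_num) (by rw [hee]; omega)
  have hWs : (n : ℝ) ≤ 4 * J * W js := by
    have h1 := (abs_le.1 (hacc r₀ t₀ hacc₀ js hs1 hs2)).1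
    have h2 : (mu t₀ js : ℝ) ≤ W js + δ := by linarith
    have h3 : 2 * (J : ℝ) * mu t₀ js ≤ 2 * J * (W js + δ) :=
      mul_le_mul_of_nonneg_left h2 (by positivity)
    nlinarith
  have hws : 0 < w js := by
    by_contra h
    have h0 : w js = 0 := by omega
    rw [hW] at hWs
    simp only [h0, Nat.cast_zero, zero_mul, zero_div, mul_zero] at hWs
    linarith
  obtain ⟨L, hL⟩ : ∃ L : ℝ, L = 2 ^ lm := ⟨_, rfl⟩
  have hL1 : 1 < L := by
    rw [hL]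
    exact one_lt_pow₀ (by norm_num) (by omega)
  have hL0 : (0 : ℝ) < L := by linarith
  obtain ⟨u, j, hu2, huJ, hj1, hjJ, hcmp0⟩ := exists_u hJ1 hL1 w ⟨js, hs1, hs2, hws⟩
  obtain ⟨Q, hQ⟩ : ∃ Q : ℕ, Q = 2 ^ (lm * u) := ⟨_, rfl⟩
  have hQL : (Q : ℝ) = L ^ u := by
    rw [hQ, hL, ← pow_mul]
    push_cast
    rfl
  rw [← hQL] at hcmp0
  have hQ4 : 4 ≤ Q := by
    rw [hQ, show (4 : ℕ) = 2 ^ 2 by norm_num]
    exact Nat.pow_le_pow_right (by norm_num) (by nlinarith)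
  have hQr : (4 : ℝ) ≤ Q := by exact_mod_cast hQ4
  have hQ0 : (0 : ℝ) < Q := by linarith
  have hq1 : (1 : ℝ) / Q ≤ 1 := by rw [div_le_one hQ0]; linarith
  have hq0 : (0 : ℝ) ≤ 1 / Q := by positivity
  obtain ⟨ψ, hψ⟩ : ∃ ψ : ℝ, ψ = W j * (1 / (Q : ℝ)) ^ j := ⟨_, rfl⟩
  have hW0 : ∀ i, 0 ≤ W i := by
    intro i
    rw [hW]
    positivity
  have hψ' : 0 ≤ ψ := by
    rw [hψ]
    exact mul_nonneg (hW0 _) (by positivity)
  have hcmp : ∀ j', 1 ≤ j' → j' ≤ J → j' ≠ j → W j' * (1 / (Q : ℝ)) ^ j' ≤ ψ / L := by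
    intro j' h1 h2 h3
    have h4 := mul_le_mul_of_nonneg_left (hcmp0 j' h1 h2 h3) (show (0 : ℝ) ≤ n / σ by positivity)
    rw [hψ, hW]
    beta_reduce
    calc (w j' : ℝ) * n / σ * (1 / (Q : ℝ)) ^ j' = n / σ * ((w j' : ℝ) * (1 / (Q : ℝ)) ^ j') := by
          ring
      _ ≤ n / σ * ((w j : ℝ) * (1 / (Q : ℝ)) ^ j / L) := h4
      _ = _ := by ring
  have hstar : W js * (1 / (Q : ℝ)) ^ js ≤ ψ := by
    by_cases h : js = j
    · rw [h, hψ]
    · exact (hcmp js hs1 hs2 h).trans (div_le_self hψ' hL1.le)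
  have hbig : (n : ℝ) ≤ 4 * J * (Q : ℝ) ^ J * ψ := by
    have h1 : W js * (1 / (Q : ℝ)) ^ J ≤ ψ := by
      refine le_trans ?_ hstar
      exact mul_le_mul_of_nonneg_left (pow_le_pow_of_le_one hq0 hq1 hs2) (hW0 _)
    rw [one_div, inv_pow, ← div_eq_mul_inv, div_le_iff₀ (by positivity)] at h1
    calc (n : ℝ) ≤ 4 * J * W js := hWs
      _ ≤ 4 * J * (ψ * (Q : ℝ) ^ J) := mul_le_mul_of_nonneg_left h1 (by positivity)
      _ = _ := by ring
  have hψ0 : 0 < ψ := by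
    rcases hψ'.lt_or_eq with h | h
    · exact h
    · rw [← h, mul_zero] at hbig
      linarith
  have hQJ : (Q : ℝ) ^ J ≤ 2 ^ (2 * lm * J ^ 2) := by
    have h1 : Q ^ J ≤ 2 ^ (2 * lm * J ^ 2) := by
      rw [hQ, ← pow_mul]
      apply Nat.pow_le_pow_right (by norm_num)
      calc lm * u * J ≤ lm * (2 * J) * J :=
            Nat.mul_le_mul_right _ (Nat.mul_le_mul_left _ huJ)
        _ = _ := by ring
    exact_mod_cast h1
  have hbig2 : (n : ℝ) ≤ 2 ^ (J + 2) * 2 ^ (2 * lm * J ^ 2) * ψ := by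
    refine hbig.trans ?_
    refine mul_le_mul_of_nonneg_right ?_ hψ'
    refine mul_le_mul ?_ hQJ (by positivity) (by positivity)
    calc 4 * (J : ℝ) ≤ 4 * 2 ^ J := by linarith
      _ = 2 ^ (J + 2) := by ring
  have hδψ : δ ≤ ψ / (16 * L) := by
    rw [hδ, div_le_div_iff₀ (by positivity) (by positivity)]
    have h1 : (n : ℝ) * (16 * L) ≤ (2 ^ (J + 2) * 2 ^ (2 * lm * J ^ 2) * ψ) * (16 * L) :=
      mul_le_mul_of_nonneg_right hbig2 (by positivity)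
    refine h1.trans ?_
    rw [hL]
    have h2 : (2 : ℝ) ^ (J + 2) * 2 ^ (2 * lm * J ^ 2) * ψ * (16 * 2 ^ lm) =
        ψ * 2 ^ (2 * lm * J ^ 2 + lm + J + 6) := by
      rw [show (16 : ℝ) = 2 ^ 4 by norm_num]
      rw [show 2 * lm * J ^ 2 + lm + J + 6 = (J + 2) + 2 * lm * J ^ 2 + (4 + lm) by ring,
        pow_add, pow_add, pow_add 2 4 lm]
      ring
    rw [h2]
    exact mul_le_mul_of_nonneg_left (pow_le_pow_right₀ (by norm_num) (by rw [hee]; omega)) hψ'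
  -- the sampling rate
  have hDr : (D : ℝ) = 2 ^ dx J y := by rw [hD]; push_cast; rfl
  have hD0 : (0 : ℝ) < D := by rw [hDr]; positivity
  obtain ⟨x, hx⟩ : ∃ x : ℝ, x = 15 / 16 * ψ * D / n := ⟨_, rfl⟩
  have hx1 : 1 ≤ x := by
    rw [hx, le_div_iff₀ hnr, one_mul]
    refine hbig2.trans ?_
    rw [hDr, hdx]
    have h2 : 15 / 16 * ψ * (2 : ℝ) ^ (2 * lm * J ^ 2 + 2 * J + 4) =
        15 * 2 ^ J * (2 ^ J * 2 ^ (2 * lm * J ^ 2)) * ψ := by
      rw [show 2 * lm * J ^ 2 + 2 * J + 4 = 2 * lm * J ^ 2 + J + J + 4 by ring, pow_add, pow_add,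
        pow_add]
      ring
    rw [h2]
    refine mul_le_mul_of_nonneg_right ?_ hψ'
    have h3 : (1 : ℝ) ≤ 2 ^ J := one_le_pow₀ (by norm_num)
    have h4 : (0 : ℝ) ≤ 2 ^ J * 2 ^ (2 * lm * J ^ 2) := by positivity
    calc (2 : ℝ) ^ (J + 2) * 2 ^ (2 * lm * J ^ 2) = 4 * (2 ^ J * 2 ^ (2 * lm * J ^ 2)) := by
          rw [pow_add]; ring
      _ ≤ 15 * 2 ^ J * (2 ^ J * 2 ^ (2 * lm * J ^ 2)) := by nlinarith
  have hψn : ψ ≤ n := by
    have h1 : W j ≤ 2 * n := by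
      have h2 := (abs_le.1 (hacc r₀ t₀ hacc₀ j hj1 hjJ)).2
      have h3 : (mu t₀ j : ℝ) ≤ n := by
        have : mu t₀ j ≤ n := (card_le_univ _).trans (by rw [Fintype.card_fin])
        exact_mod_cast this
      have h4 : δ ≤ n := by
        have h5 : (0 : ℝ) ≤ δ := (abs_nonneg _).trans (hacc r₀ t₀ hacc₀ j hj1 hjJ)
        nlinarith
      linarith
    have h2 : (1 / (Q : ℝ)) ^ j ≤ 1 / Q := by
      calc (1 / (Q : ℝ)) ^ j ≤ (1 / (Q : ℝ)) ^ 1 := pow_le_pow_of_le_one hq0 hq1 hj1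
        _ = 1 / Q := pow_one _
    have h3 : (1 : ℝ) / Q ≤ 1 / 2 := by
      rw [div_le_div_iff₀ hQ0 (by norm_num)]
      linarith
    rw [hψ]
    calc W j * (1 / (Q : ℝ)) ^ j ≤ 2 * n * (1 / 2) :=
          mul_le_mul h1 (h2.trans h3) (by positivity) (by positivity)
      _ = n := by ring
  have hxD : x ≤ D := by
    rw [hx, div_le_iff₀ hnr]
    nlinarith
  have hfl : 1 ≤ ⌊x⌋₊ := Nat.le_floor (by rw [Nat.cast_one]; exact hx1)
  obtain ⟨θ, hθ⟩ : ∃ θ : ℕ, θ = Nat.log 2 ⌊x⌋₊ := ⟨_, rfl⟩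
  have hθ1 : 2 ^ θ ≤ ⌊x⌋₊ := by
    rw [hθ]
    exact Nat.pow_log_le_self 2 (by omega)
  have hθ2 : ⌊x⌋₊ < 2 ^ (θ + 1) := by
    rw [hθ]
    exact Nat.lt_pow_succ_log_self (by norm_num) _
  have hflx : (⌊x⌋₊ : ℝ) ≤ x := Nat.floor_le (by linarith)
  have hθ1r : ((2 ^ θ : ℕ) : ℝ) ≤ x := by
    refine le_trans ?_ hflx
    exact_mod_cast hθ1
  have hθ2r : x ≤ 2 * ((2 ^ θ : ℕ) : ℝ) := by
    have h1 := (Nat.lt_floor_add_one x).le
    refine h1.trans ?_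
    have h2 : ⌊x⌋₊ + 1 ≤ 2 * 2 ^ θ := by
      rw [pow_succ] at hθ2
      omega
    exact_mod_cast h2
  have hθD : θ ≤ dx J y := by
    have h1 : (2 : ℕ) ^ θ ≤ 2 ^ dx J y := by
      rw [← hD]
      have : ((2 ^ θ : ℕ) : ℝ) ≤ D := hθ1r.trans hxD
      exact_mod_cast this
    exact (Nat.pow_le_pow_iff_right (by norm_num)).1 h1
  refine ⟨u, j, θ, by omega, by omega, hj1, hjJ, hθD, fun r t hne hsum hac => ?_⟩
  rw [← hD, ← hQ]
  refine ana_of hk hn hJ hlm' hu2 hj1 hjJ hQ W hL hψ hcmp t hne hsum (hacc r t hac) hbig hδψ hψ0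
    ?_ ?_
  · rw [hx, le_div_iff₀ hnr] at hθ1r
    exact hθ1r
  · rw [hx, div_le_iff₀ hnr] at hθ2r
    linarith

end Pool.Agent.L0h37.HN
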